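import Pool.Agent.Helper12_MEB.B078

/-!
# MP_1906c1_mp: the Lyapunov exponent determines the localized region

For `H = Δ + σ ξ` on `ℤ^d` (any `d ≥ 1`), `ξ` iid standard Gaussian, and any `σ ≠ 0`, there is a
nonrandom continuous function `γ ≥ 0` of the energy with

  `- (1 / L) log max_{|u|_∞ = L} |G_L(0, u; E)| → γ(E)` in probability, as `L → ∞`, for every real `E`

(`G_L` the Green function of the cube `|x|_∞ ≤ L`), and, almost surely:

* every nonzero polynomially bounded solution `ψ` of `H ψ = E ψ`, at every energy `E`, satisfies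
  `limsup_{|x|_∞ → ∞} log |ψ(x)| / |x|_∞ = - γ(E)`;
* for EVERY open set `I` of energies, `H` is exponentially localized in `I` (the spectrum in `I` is
  pure point and all the eigenfunctions decay exponentially) if and only if `γ > 0` almost everywhere
  in `I`;
* for EVERY open set `I` in which `H` has no eigenvalue, `γ = 0` on `I`.

Consequences, for each `σ ≠ 0`: exponential localization at all energies (the usual form of (1))
holds if and only if `γ > 0` almost everywhere; localization in `|E| > E₀` holds if and only if
`γ > 0` almost everywhere there; and if (2a), (2b) hold with the edge `E₀`, then `γ > 0` almost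
everywhere in `|E| > E₀` and `γ = 0` on `|E| ≤ E₀`: the mobility edge is the edge of the set of the
zeros of `γ`.

The proof. (1) Existence of `γ`: in a large cube, at a real energy, `-log |G(a, a + ℓ y)| / ℓ`,
averaged over the base point `a`, is a Cauchy sequence in `L²` as `ℓ → ∞`, by almost subadditivity
(`|G(x, u)| |G(u, y)| ≤ e^t |G(x, y)|` outside an event of probability `C e^{-t}`), Fekete's lemma for
the norms and the parallelogram identity; disjoint cubes are independent. Continuity: `γ` is an
infimum over the scale of continuous functions (upper semicontinuity), and the multiscale induction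
starts from a finite volume estimate which is stable (lower semicontinuity).
(2) A multiscale induction at one energy, in which a bad cluster costs nothing but its radial
shadow, so that the loss of rate is arbitrarily small: it starts from the convergence in
probability. (3) A solution off the site `0` with `n(0) = 1` and exponential decay is an
eigenfunction for one value `v(E)` of the potential at `0`; `v` is a Lipschitz function of `E`. Hence
a measurable set of pairs (potential, energy) which does not depend on the potential at `0`, and has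
probability zero at almost every fixed energy, does not occur at eigenvalues; this transfers the
exact rate from fixed energies to all eigenvalues, and completeness in the open set `{γ > 0}`.
(4) Localization where `γ > 0` almost everywhere: by the Wegner estimate the mean spectral measure
has a bounded density, so almost surely open neighbourhoods of the null set `I ∩ {γ = 0}` carry
arbitrarily little spectral measure; a vector orthogonal to all the eigenfunctions with energies in
`I` has its smoothed spectral measure in these neighbourhoods, so it is zero. (5) Conversely, the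
mean spectral measure has a density which is bounded from below, and by ergodicity the spectral
measure charges every closed set of positive measure almost surely, in particular the zeros of `γ`;
a localized eigenfunction with energy `E` has `γ(E) > 0` by the exact rate.
-/

set_option autoImplicit false

open MeasureTheory ProbabilityTheory Filter

open scoped ENNReal InnerProductSpace Topology

noncomputable section

namespace Pool.Agent.Results.MP_1906c1_mp.ExactDecayRate

open Pool.Agent.Anderson Pool.Agent.Loc Pool.Agent.Helper54.Bal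

universe u

variable {d : ℕ}

/-- Exponential decay, at the rate `κ`, of the Green function of `H = Δ + V` in the cube
`Loc.box 0 L`, `|x|_∞ ≤ L`, from the centre to the boundary: `E` is not an eigenvalue of the
restriction of `H` to the cube and the matrix element at `0`, `u` of the inverse of `E - H` in the
cube is at most `e^{-κ L}` for all `u` with `|u|_∞ = L`. -/
def Decays (V : Site d → ℝ) (E κ : ℝ) (L : ℕ) : Prop :=
  (RM V (Loc.box 0 L) E).det ≠ 0 ∧ ∀ u, sd 0 u = L → |gr V (Loc.box 0 L) E 0 u| ≤ Real.exp (-κ * L)

/-- The probability of decay, for `V = σ ξ`, `ξ` independent standard Gaussians. -/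
def prob (d : ℕ) (σ E κ : ℝ) (L : ℕ) : ℝ≥0∞ :=
  (Measure.infinitePi fun _ : Site d => gaussianReal 0 1)
    {ξ : Site d → ℝ | Decays (fun x => σ * ξ x) E κ L}

/-- The exponential rate of decay of `ψ` is exactly `g`: `ψ = O(e^{-m |x|})` for all `m < g` and for
no `m > g`. -/
def RateIs (g : ℝ) (ψ : Site d → ℂ) : Prop :=
  (∀ m : ℝ, m < g → ∃ B : ℝ, ∀ x, ‖ψ x‖ ≤ B * Real.exp (-m * sd 0 x)) ∧
  ∀ m B : ℝ, g < m → ¬ ∀ x, ‖ψ x‖ ≤ B * Real.exp (-m * sd 0 x)

/-- `H = Δ + V` is exponentially localized in the set `I` of energies: the spectrum in `I` is pure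
point (for `[a - r, a + r] ⊆ I` a vector `u ∈ ℓ²` with `w = H u ∈ ℓ²` which is orthogonal to all
the eigenfunctions with eigenvalues in `[a - r, a + r]` satisfies `‖(H - a) u‖ ≥ r ‖u‖`), and all the
eigenfunctions with eigenvalues in `I` decay exponentially. -/
def Localized (V : Site d → ℝ) (I : Set ℝ) : Prop :=
  (∀ a r : ℝ, Set.Icc (a - r) (a + r) ⊆ I → ∀ u w : L2 d,
    (∀ x, w x = lap u x + (V x : ℂ) * u x) →
    (∀ (E : ℝ) (φ : L2 d), E ∈ Set.Icc (a - r) (a + r) → IsEigen V E φ → ⟪φ, u⟫_ℂ = 0) →
    r * ‖u‖ ≤ ‖w - (a : ℂ) • u‖) ∧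
  ∀ E ∈ I, ∀ φ : L2 d, IsEigen V E φ →
    ∃ m B : ℝ, 0 < m ∧ ∀ x, ‖φ x‖ ≤ B * Real.exp (-m * sd 0 x)

theorem prob_eq (σ E κ : ℝ) (L : ℕ) : prob d σ E κ L = Pool.Agent.LE.H93.pr d σ E κ L := by
  have hm : ∀ y : Site d, Measurable fun ξ : Site d → ℝ => ξ y := fun y => measurable_pi_apply y
  have hlaw : ∀ y : Site d, (Measure.infinitePi fun _ : Site d => gaussianReal 0 1).map
      (fun ξ => ξ y) = gaussianReal 0 1 := fun y =>
    (measurePreserving_eval_infinitePi (fun _ : Site d => gaussianReal 0 1) y).map_eq
  have hind : iIndepFun (fun (y : Site d) (ξ : Site d → ℝ) => ξ y)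
      (Measure.infinitePi fun _ : Site d => gaussianReal 0 1) :=
    iIndepFun_infinitePi (P := fun _ : Site d => gaussianReal 0 1) (X := fun _ t => t)
      (fun _ => measurable_id)
  have h := Pool.Agent.Mob.H42.map_eq_PP hm hlaw hind σ
  unfold Pool.Agent.LE.H93.pr prob
  rw [← h, Measure.map_apply (Pool.Agent.Mob.H42.measurable_W hm σ)
    (Pool.Agent.LE.H93.meas_SG L κ E 0)]
  rfl

/-- Let `d ≥ 1`, `σ ≠ 0`, `H = Δ + σ ξ` with `ξ(y)`, `y ∈ ℤ^d`, independent standard Gaussians.
There is a continuous function `γ ≥ 0` with

* for every real `E` and every `ε > 0` the probability of decay at the rate `γ(E) + ε` in the cube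
  of radius `L` tends to `0`, and the probability of decay at the rate `γ(E) - ε` tends to `1`, as
  `L → ∞`;
* if `d ≥ 3`, `γ(E) > 0` for all large `|E|`;
* for each family `ξ` of independent standard Gaussians, almost surely: for all real `E` and all
  nonzero polynomially bounded solutions `ψ` of `H ψ = E ψ`, the exponential rate of decay of `ψ` is
  exactly `γ(E)`; for every open set `I`, `H` is exponentially localized in `I` if and only if the
  set of the zeros of `γ` in `I` has Lebesgue measure zero; and for every open set `I` without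
  eigenvalues of `H`, `γ = 0` on `I`. -/
theorem result (d : ℕ) (hd : 1 ≤ d) (σ : ℝ) (hσ : σ ≠ 0) :
    ∃ γ : ℝ → ℝ,
      (∀ E : ℝ, 0 ≤ γ E ∧ ∀ ε : ℝ, 0 < ε →
        Tendsto (prob d σ E (γ E + ε)) atTop (𝓝 0) ∧
        Tendsto (prob d σ E (γ E - ε)) atTop (𝓝 1)) ∧
      Continuous γ ∧
      (3 ≤ d → ∃ K : ℝ, ∀ E : ℝ, K < |E| → 0 < γ E) ∧
      ∀ (Ω : Type u) [MeasurableSpace Ω] (P : Measure Ω) [IsProbabilityMeasure P]
        (ξ : Site d → Ω → ℝ), (∀ y, Measurable (ξ y)) →
        (∀ y, P.map (ξ y) = gaussianReal 0 1) → iIndepFun ξ P →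
        ∀ᵐ ω ∂P,
          (∀ (E : ℝ) (ψ : Site d → ℂ), (∃ x, ψ x ≠ 0) →
            (∃ (B : ℝ) (k : ℕ), ∀ x, ‖ψ x‖ ≤ B * (1 + (sd 0 x : ℝ)) ^ k) →
            (∀ x, lap ψ x + ((σ * ξ x ω : ℝ) : ℂ) * ψ x = (E : ℂ) * ψ x) →
            RateIs (γ E) ψ) ∧
          (∀ I : Set ℝ, IsOpen I →
            (Localized (fun x => σ * ξ x ω) I ↔ volume {E | E ∈ I ∧ γ E = 0} = 0)) ∧
          ∀ I : Set ℝ, IsOpen I →
            (∀ E ∈ I, ∀ φ : L2 d, IsEigen (fun x => σ * ξ x ω) E φ → φ = 0) →
            ∀ E ∈ I, γ E = 0 := by
  obtain ⟨γ, h0, h1, h3, h4⟩ := Pool.Agent.LE.CH.H93.mainT.{u} d hd σ hσ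
  refine ⟨γ, fun E => ⟨(h0 E).1, fun ε hε => ?_⟩, h1, h3, h4⟩
  have e : ∀ κ, prob d σ E κ = Pool.Agent.LE.H93.pr d σ E κ :=
    fun κ => funext fun L => prob_eq σ E κ L
  rw [e, e]
  exact (h0 E).2 ε hε

end Pool.Agent.Results.MP_1906c1_mp.ExactDecayRate
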