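import Pool.Agent.Helper12_MEB.B150
import Pool.Agent.Helper12_MEB.B178

/-!
# MP_1906c1_mp: extended states at weak disorder, the mobility edge

For `H = Δ + σ ξ` on `ℤ^d`, `d ≥ 3`, `ξ` iid standard Gaussian, there are a critical coupling
`0 < σc < ∞` and a mobility edge `E₀(σ) ≥ 0`, `σ ≠ 0`, such that, almost surely (the spectrum is the
whole line):

* (1) if `|σ| > σc`, the spectrum is pure point, the eigenvalues are dense and all the eigenfunctions
  decay exponentially;
* (2a) for every `σ ≠ 0` there is exponential localization in `|E| ≥ E₀(σ)`, and `E₀(σ)` is optimal: for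
  `0 ≤ e < E₀(σ)` there is no exponential localization in `|E| > e`. The number `σc` is optimal too:
  arbitrarily close to it, or at it, there are `|σ| ≤ σc` with `E₀(σ) > 0`, no localization on the line;
* (2b) at weak disorder there are extended states: for each `a > 0` there is `s > 0` such that for
  `0 < |σ| ≤ s` the spectrum in `|E| < 2 d - a` is purely absolutely continuous (it fills the interval,
  there is no eigenvalue), and `2 d - a ≤ E₀(σ) ≤ 2 d + G σ² + C |σ|^(2 + 1 / (24 d))`,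
  `G = (2 d - Δ)⁻¹(0, 0)`.
-/

set_option autoImplicit false

open MeasureTheory ProbabilityTheory

open scoped ENNReal InnerProductSpace

noncomputable section

namespace Pool.Agent.Results.MP_1906c1_mp.MobilityEdge

open Pool.Agent.Anderson

universe u

variable {d : ℕ}

/-- `w = H u`: `u` is in the domain `{u ∈ ℓ²(ℤ^d) : Δ u + V u ∈ ℓ²(ℤ^d)}` of the operator
`H = Δ + V`, and `w = Δ u + V u`. -/
def IsH (V : Site d → ℝ) (u w : L2 d) : Prop :=
  ∀ x, w x = lap u x + (V x : ℂ) * u x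

/-- `H` is self-adjoint: its domain is dense and `H* = H`, where `w = H* u` means that
`⟨v, w⟩ = ⟨H v, u⟩` for all `v` in the domain of `H`. -/
def SelfAdjoint (V : Site d → ℝ) : Prop :=
  Dense {u : L2 d | ∃ w, IsH V u w} ∧
  ∀ u w : L2 d, (∀ v k : L2 d, IsH V v k → ⟪v, w⟫_ℂ = ⟪k, u⟫_ℂ) ↔ IsH V u w

/-- The spectrum of `H`: the set of all complex numbers `z` such that `H - z` is not a bijection of the
domain of `H` onto `ℓ²(ℤ^d)` (`H` is closed, so the inverse of a bijective `H - z` is bounded). -/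
def spectrumOf (V : Site d → ℝ) : Set ℂ :=
  {z | ¬ ∀ f : L2 d, ∃! u : L2 d, IsH V u (f + z • u)}

/-- The set of the eigenvalues of `H`. -/
def eigenvalues (V : Site d → ℝ) : Set ℝ :=
  {E | ∃ u : L2 d, u ≠ 0 ∧ IsH V u ((E : ℂ) • u)}

/-- `μ` is the spectral measure of the vector `u`: `μ` is a finite measure on the line and
`⟨u, (H - z)⁻¹ u⟩ = ∫ (E - z)⁻¹ dμ(E)` for all `z` off the line; `v = (H - z)⁻¹ u` means
`H v = u + z v`. -/
def IsSpectralMeasure (V : Site d → ℝ) (u : L2 d) (μ : Measure ℝ) : Prop :=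
  IsFiniteMeasure μ ∧ ∀ (z : ℂ) (v : L2 d), z.im ≠ 0 → IsH V v (u + z • v) →
    ⟪u, v⟫_ℂ = ∫ E : ℝ, ((E : ℂ) - z)⁻¹ ∂μ

/-- The spectrum of `H` in the Borel set `I` is pure point: the restriction to `I` of every spectral
measure is carried by a countable set. -/
def PurePointIn (V : Site d → ℝ) (I : Set ℝ) : Prop :=
  ∀ (u : L2 d) (μ : Measure ℝ), IsSpectralMeasure V u μ →
    ∃ S : Set ℝ, S.Countable ∧ μ (I \ S) = 0

/-- The spectrum of `H` in the Borel set `I` is purely absolutely continuous and fills `I`: the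
restriction to `I` of every spectral measure is absolutely continuous with respect to the Lebesgue
measure, and the Lebesgue measure on `I` is absolutely continuous with respect to some spectral
measure. -/
def PurelyACIn (V : Site d → ℝ) (I : Set ℝ) : Prop :=
  (∀ (u : L2 d) (μ : Measure ℝ), IsSpectralMeasure V u μ → μ.restrict I ≪ volume) ∧
  ∃ (u : L2 d) (μ : Measure ℝ), IsSpectralMeasure V u μ ∧ (volume : Measure ℝ).restrict I ≪ μ

/-- `H` is exponentially localized in the Borel set `I`: the spectrum in `I` is pure point and every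
eigenvector with an eigenvalue in `I` decays exponentially; `‖x‖` is the maximum of the `|x i|`. -/
def LocalizedIn (V : Site d → ℝ) (I : Set ℝ) : Prop :=
  PurePointIn V I ∧ ∀ E ∈ I, ∀ u : L2 d, IsH V u ((E : ℂ) • u) →
    ∃ m C : ℝ, 0 < m ∧ ∀ x, ‖u x‖ ≤ C * Real.exp (-m * ‖x‖)

/-- Almost surely `p V` holds for the potential `V = σ ξ`, `ξ(y)`, `y ∈ ℤ^d`, independent standard
Gaussians (on any probability space). -/
def Almost.{v} (d : ℕ) (σ : ℝ) (p : (Site d → ℝ) → Prop) : Prop :=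
  ∀ (Ω : Type v) [MeasurableSpace Ω] (P : Measure Ω) [IsProbabilityMeasure P]
    (ξ : Site d → Ω → ℝ), (∀ y, Measurable (ξ y)) → (∀ y, P.map (ξ y) = gaussianReal 0 1) →
    iIndepFun ξ P → ∀ᵐ ω ∂P, p fun x => σ * ξ x ω

/-- The number of nearest neighbour walks on `ℤ^d` with `n` steps from `0` to `x`. -/
def walks : ℕ → Site d → ℕ
  | 0, x => if x = 0 then 1 else 0
  | n + 1, x => ∑ i : Fin d, (walks n (x + Pi.single i 1) + walks n (x - Pi.single i 1))

/-- The Green function of the lattice, `(2 d - Δ)⁻¹(0, 0) = ∑ₙ walks n 0 / (2 d)^(n+1)`. -/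
def latticeGreen (d : ℕ) : ℝ := ∑' n : ℕ, (walks n (0 : Site d) : ℝ) / (2 * d) ^ (n + 1)

theorem walks_eq : ∀ (n : ℕ) (x : Site d), walks n x = Pool.Agent.Loc.walks n x
  | 0, _ => rfl
  | n + 1, x => by
    unfold walks Pool.Agent.Loc.walks
    exact Finset.sum_congr rfl fun i _ => by rw [walks_eq n, walks_eq n]

theorem latticeGreen_eq (d : ℕ) :
    latticeGreen d = Pool.Agent.EXT.H54.Handin.latticeGreen d := by
  rw [Pool.Agent.EXT.H54.Handin.latticeGreen_eq]
  unfold latticeGreen Pool.Agent.Loc.watson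
  exact tsum_congr fun n => by rw [walks_eq]

/-- Let `d ≥ 3`. For every potential `V : ℤ^d → ℝ` the operator `H = Δ + V` is self-adjoint and every
vector has exactly one spectral measure. For `V = σ ξ`, with `ξ(y)`, `y ∈ ℤ^d`, independent standard
Gaussians, there are `σc > 0` and a function `E₀` such that:

* for every `σ ≠ 0`, almost surely, the spectrum of `H` is the whole line;
* (1) if `|σ| > σc`, almost surely, `H` is exponentially localized at all energies and its eigenvalues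
  are dense in the line;
* (2a) for every `σ ≠ 0`: `E₀(σ) ≥ 0`, almost surely `H` is exponentially localized in
  `|E| ≥ E₀(σ)`, and for `0 ≤ e < E₀(σ)`, almost surely, `H` is not exponentially localized in
  `|E| > e`; and for every `s < σc` there is `σ` with `s < |σ| ≤ σc` and `E₀(σ) > 0`;
* (2b) for every `a > 0` there is `s > 0` such that for `0 < |σ| ≤ s`: `2 d - a ≤ E₀(σ)`, and almost
  surely the spectrum of `H` in `|E| < 2 d - a` is purely absolutely continuous, without eigenvalues;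
* there are `c, C > 0` such that `E₀(σ) ≤ 2 d + G σ² + C |σ|^(2 + 1 / (24 d))` for `0 < |σ| ≤ c`,
  `G = (2 d - Δ)⁻¹(0, 0)`. -/
theorem result (d : ℕ) (hd : 3 ≤ d) :
    (∀ V : Site d → ℝ, SelfAdjoint V ∧ ∀ u : L2 d, ∃! μ : Measure ℝ, IsSpectralMeasure V u μ) ∧
    ∃ (σc : ℝ) (E₀ : ℝ → ℝ), 0 < σc ∧
    (∀ σ : ℝ, σ ≠ 0 → Almost.{u} d σ fun V => spectrumOf V = Set.range ((↑) : ℝ → ℂ)) ∧
    (∀ σ : ℝ, σc < |σ| → Almost.{u} d σ fun V =>
      LocalizedIn V Set.univ ∧ closure (eigenvalues V) = Set.univ) ∧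
    (∀ σ : ℝ, σ ≠ 0 → 0 ≤ E₀ σ ∧ (Almost.{u} d σ fun V => LocalizedIn V {E | E₀ σ ≤ |E|}) ∧
      ∀ e : ℝ, 0 ≤ e → e < E₀ σ → Almost.{u} d σ fun V => ¬ LocalizedIn V {E | e < |E|}) ∧
    (∀ s : ℝ, s < σc → ∃ σ : ℝ, s < |σ| ∧ |σ| ≤ σc ∧ 0 < E₀ σ) ∧
    (∀ a : ℝ, 0 < a → ∃ s : ℝ, 0 < s ∧ ∀ σ : ℝ, σ ≠ 0 → |σ| ≤ s →
      2 * d - a ≤ E₀ σ ∧ Almost.{u} d σ fun V =>
        PurelyACIn V {E | |E| < 2 * d - a} ∧ ∀ E ∈ eigenvalues V, 2 * d - a ≤ |E|) ∧
    ∃ c C : ℝ, 0 < c ∧ 0 < C ∧ ∀ σ : ℝ, σ ≠ 0 → |σ| ≤ c →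
      E₀ σ ≤ 2 * d + latticeGreen d * σ ^ 2 + C * |σ| ^ (2 + 1 / (24 * d : ℝ)) := by
  rw [latticeGreen_eq]
  exact Pool.Agent.SPX.Gr.main.{u} Pool.Agent.AND2B.finT0 Pool.Agent.ACX.TOP.acxT d hd

end Pool.Agent.Results.MP_1906c1_mp.MobilityEdge
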